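import Pool.Agent.REV.StmtsA2

set_option autoImplicit false

/-!
# Squad REV, row INT: integrability and nonnegativity
-/

open MeasureTheory Set Filter

namespace Pool.Agent.REV.H54

open Pool.Agent.REV

lemma gen (F : ℝ → ℝ) (hm : Measurable F) (M : ℝ) (h0 : ∀ x : ℝ, 0 < x → x ≤ 1 → 0 ≤ F x)
    (h1 : ∀ x : ℝ, 0 < x → x ≤ 1 → F x ≤ M) :
    IntervalIntegrable F volume 0 1 ∧ 0 ≤ ∫ x in (0 : ℝ)..1, F x := by
  constructor
  · rw [intervalIntegrable_iff_integrableOn_Ioc_of_le zero_le_one]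
    refine Measure.integrableOn_of_bounded (M := M) ?_ hm.aestronglyMeasurable ?_
    · simp
    · refine (ae_restrict_iff' measurableSet_Ioc).2 (Eventually.of_forall fun x hx => ?_)
      rw [Real.norm_eq_abs, abs_of_nonneg (h0 x hx.1 hx.2)]
      exact h1 x hx.1 hx.2
  · rw [intervalIntegral.integral_of_le zero_le_one]
    exact setIntegral_nonneg measurableSet_Ioc fun x hx => h0 x hx.1 hx.2

theorem int : IntStmt := by
  intro n f hn hf
  obtain ⟨M, hM⟩ := hf.bdd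
  have hn' : (4 : ℝ) ≤ n := by exact_mod_cast hn
  have base : ∀ p : ℝ, Measurable (fun x : ℝ => (1 - x ^ 2) ^ p) := fun p =>
    (measurable_const.sub (measurable_id.pow_const 2)).pow_const p
  have w0 : ∀ p x : ℝ, 0 ≤ x → x ≤ 1 → 0 ≤ (1 - x ^ 2) ^ p := fun p x h0 h1 =>
    Real.rpow_nonneg (by nlinarith) p
  have w1 : ∀ p x : ℝ, 0 ≤ p → 0 ≤ x → x ≤ 1 → (1 - x ^ 2) ^ p ≤ 1 := fun p x hp h0 h1 =>
    Real.rpow_le_one (by nlinarith) (by nlinarith [sq_nonneg x]) hp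
  have main : ∀ (p c : ℝ) (_ : 0 ≤ p) (_ : 0 ≤ c) (_ : c ≤ 1) (q : ℝ → ℝ) (_ : Measurable q)
      (_ : ∀ x, 0 ≤ x → x ≤ 1 → 0 ≤ q x ∧ q x ≤ 1),
      IntervalIntegrable (fun r : ℝ => q r * (1 - r ^ 2) ^ p * f (r * c)) volume 0 1 ∧
      0 ≤ ∫ r in (0 : ℝ)..1, q r * (1 - r ^ 2) ^ p * f (r * c) := by
    intro p c hp hc0 hc1 q hq hqb
    have hmem : ∀ x : ℝ, 0 < x → x ≤ 1 → x * c ∈ Icc (0 : ℝ) 1 := fun x h0 h1 =>
      ⟨by positivity, by nlinarith⟩
    refine gen _ ((hq.mul (base p)).mul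
      (hf.meas.comp (measurable_id.mul_const c))) M ?_ ?_
    · intro x h0 h1
      exact mul_nonneg (mul_nonneg (hqb x h0.le h1).1 (w0 p x h0.le h1))
        (hf.nonneg _ (hmem x h0 h1))
    · intro x h0 h1
      have a1 := hf.nonneg _ (hmem x h0 h1)
      have a2 := hM _ (hmem x h0 h1)
      have a3 : q x * (1 - x ^ 2) ^ p ≤ 1 :=
        mul_le_one₀ (hqb x h0.le h1).2 (w0 p x h0.le h1) (w1 p x hp h0.le h1)
      calc q x * (1 - x ^ 2) ^ p * f (x * c) ≤ 1 * f (x * c) :=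
            mul_le_mul_of_nonneg_right a3 a1
        _ ≤ M := by rw [one_mul]; exact a2
  refine ⟨?_, fun c hc0 hc1 => ?_⟩
  · have h := (main (((n : ℝ) - 3) / 2) 1 (by linarith) zero_le_one le_rfl (fun _ => 1)
      measurable_const (fun _ _ _ => ⟨zero_le_one, le_rfl⟩)).1
    simpa using h
  · have hA := main (((n : ℝ) - 2) / 2) c (by linarith) hc0 hc1 (fun _ => 1)
      measurable_const (fun _ _ _ => ⟨zero_le_one, le_rfl⟩)
    have hB := main (((n : ℝ) - 4) / 2) c (by linarith) hc0 hc1 (fun r => r ^ 2)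
      (measurable_id.pow_const 2) (fun x h0 h1 => ⟨by positivity, by nlinarith⟩)
    simp only [one_mul] at hA
    exact ⟨hA.1, hB.1, hA.2, hB.2⟩

end Pool.Agent.REV.H54
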