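import Pool.Agent.REV.StmtsG
import Pool.Agent.BPH.Fob

set_option autoImplicit false

/-!
# Squad REV, row PAI: the law of a random orthonormal pair
-/

open MeasureTheory Module Set Filter
open scoped RealInnerProductSpace Pointwise Topology ENNReal

namespace Pool.Agent.REV.H54

open Pool.Agent.BPH Pool.Agent.REV

/-- an isometry between two orthonormal pairs -/
lemma exists_pair {E : Type} [NormedAddCommGroup E] [InnerProductSpace ℝ E]
    [FiniteDimensional ℝ E] (y1 y2 z1 z2 : E) (h1 : ‖y1‖ = 1) (h2 : ‖y2‖ = 1)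
    (h12 : ⟪y1, y2⟫ = 0) (k1 : ‖z1‖ = 1) (k2 : ‖z2‖ = 1) (k12 : ⟪z1, z2⟫ = 0) :
    ∃ T : E ≃ₗᵢ[ℝ] E, T z1 = y1 ∧ T z2 = y2 := by
  let R1 : E ≃ₗᵢ[ℝ] E := (ℝ ∙ (z1 - y1))ᗮ.reflection
  have hR1 : R1 z1 = y1 := Submodule.reflection_sub (by rw [h1, k1])
  let z : E := R1 z2
  have hz : ‖z‖ = 1 := by
    show ‖R1 z2‖ = 1
    rw [LinearIsometryEquiv.norm_map, k2]
  have hyz : ⟪y1, z⟫ = 0 := by
    rw [← hR1]
    show ⟪R1 z1, R1 z2⟫ = 0
    rw [LinearIsometryEquiv.inner_map_map, k12]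
  let R2 : E ≃ₗᵢ[ℝ] E := (ℝ ∙ (z - y2))ᗮ.reflection
  have hR2 : R2 z = y2 := Submodule.reflection_sub (by rw [h2, hz])
  have hR2' : R2 y1 = y1 := by
    refine Submodule.reflection_mem_subspace_eq_self ?_
    rw [Submodule.mem_orthogonal_singleton_iff_inner_left, inner_sub_right, hyz, h12, sub_zero]
  refine ⟨R1.trans R2, ?_, ?_⟩
  · show R2 (R1 z1) = y1
    rw [hR1, hR2']
  · exact hR2

theorem pai : PaiStmt := by
  intro E _ _ _ _ _ lam hl y1 y2 z1 z2 h1 h2 h12 k1 k2 k12 Φ _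
  obtain ⟨T, hT1, hT2⟩ := exists_pair y1 y2 z1 z2 h1 h2 h12 k1 k2 k12
  rw [← Fob18.integral_right hl T (fun g => Φ (g z1, g z2))]
  refine integral_congr_ae (Eventually.of_forall fun g => ?_)
  simp only [ContinuousLinearMap.comp_apply, Fob18.opT_apply, hT1, hT2]

end Pool.Agent.REV.H54
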