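import Pool.Agent.REV.StmtsU

set_option autoImplicit false

/-!
# Squad REV, row KKI: the function `kk`
-/

open MeasureTheory Set Filter

namespace Pool.Agent.REV.H54

open Pool.Agent.REV

lemma cont_w (p : ℝ) (hp : 0 ≤ p) : Continuous (fun r : ℝ => (1 - r ^ 2) ^ p) :=
  Continuous.rpow_const (by fun_prop) (fun _ => Or.inr hp)

theorem kki : KkiStmt := by
  intro n hn
  have hn' : (4 : ℝ) ≤ n := by exact_mod_cast hn
  have hp : 0 ≤ ((n : ℝ) - 4) / 2 := by linarith
  have hp1 : ((n : ℝ) - 2) / 2 = ((n : ℝ) - 4) / 2 + 1 := by ring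
  have hp2 : 0 ≤ ((n : ℝ) - 2) / 2 := by linarith
  have hc : Continuous (kk n) := by
    have h1 := cont_w _ hp
    have h2 := cont_w _ hp2
    unfold kk
    exact h2.sub (continuous_const.mul ((continuous_id.pow 2).mul h1))
  refine ⟨hc.continuousOn, ?_, ?_⟩
  · intro r hr
    have h0 : 0 ≤ 1 - r ^ 2 := by
      have := hr.1
      have := hr.2
      nlinarith
    unfold kk
    rw [hp1, Real.rpow_add_one' h0 (by linarith)]
    ring
  · intro x hx
    have h := intervalIntegral.integral_eq_sub_of_hasDerivAt_of_le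
      (f := fun r : ℝ => r * (1 - r ^ 2) ^ (((n : ℝ) - 2) / 2)) (f' := kk n) hx.1
      ((continuous_id.mul (cont_w _ hp2)).continuousOn)
      (by
        intro r hr
        have hr1 : 0 < 1 - r ^ 2 := by
          have h1 := hr.1
          have h2 := lt_of_lt_of_le hr.2 hx.2
          nlinarith
        have hd : HasDerivAt (fun r : ℝ => 1 - r ^ 2) (-(2 * r)) r := by
          have h3 := (hasDerivAt_pow 2 r).const_sub 1
          simpa using h3
        have h4 := hd.rpow_const (p := ((n : ℝ) - 2) / 2) (Or.inl hr1.ne')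
        have h5 := (hasDerivAt_id' r).mul h4
        refine h5.congr_deriv ?_
        unfold kk
        have h6 : ((n : ℝ) - 2) / 2 - 1 = ((n : ℝ) - 4) / 2 := by ring
        rw [h6]
        ring)
      (hc.intervalIntegrable _ _)
    rw [h]
    simp

end Pool.Agent.REV.H54
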